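import Pool.Agent.R499.HT.Stm

/-!
Project HT, piece HT-NU: the step distribution `nu` is symmetric and has mass 1.
-/

set_option autoImplicit false

namespace Pool.Agent.R676.HT

open Pool.Agent.R499.HT

section
variable {G : Type} [Group G]

variable (G) in
/-- the involution `g ↦ g⁻¹` of the group ring -/
noncomputable def J : MonoidAlgebra ℝ G ≃+ MonoidAlgebra ℝ G :=
  MonoidAlgebra.mapDomainAddEquiv ℝ (Equiv.inv G)

lemma J_single (g : G) (r : ℝ) : J G (MonoidAlgebra.single g r) = MonoidAlgebra.single g⁻¹ r := by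
  rw [J, MonoidAlgebra.mapDomainAddEquiv_single]
  rfl

lemma J_coeff (μ : MonoidAlgebra ℝ G) (g : G) : (J G μ).coeff g = μ.coeff g⁻¹ := by
  rw [J, MonoidAlgebra.coeff_mapDomainAddEquiv, Finsupp.equivMapDomain_apply]
  rfl

lemma J_smul (r : ℝ) (μ : MonoidAlgebra ℝ G) : J G (r • μ) = r • J G μ := by
  apply MonoidAlgebra.coeff_injective
  ext g
  rw [J_coeff, MonoidAlgebra.coeff_smul, MonoidAlgebra.coeff_smul, Finsupp.smul_apply,
    Finsupp.smul_apply, J_coeff]

lemma J_mul (a b : MonoidAlgebra ℝ G) : J G (a * b) = J G b * J G a := by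
  induction a using MonoidAlgebra.induction_linear with
  | zero => simp
  | add x y hx hy => rw [add_mul, map_add, map_add, hx, hy, mul_add]
  | single g r =>
    induction b using MonoidAlgebra.induction_linear with
    | zero => simp
    | add x y hx hy => rw [mul_add, map_add, map_add, hx, hy, add_mul]
    | single h s =>
      rw [MonoidAlgebra.single_mul_single, J_single, J_single, J_single,
        MonoidAlgebra.single_mul_single, mul_inv_rev, mul_comm r s]

lemma aug_mul (a b : MonoidAlgebra ℝ G) : pair (fun _ : G => (1 : ℝ)) (a * b) =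
    pair (fun _ : G => (1 : ℝ)) a * pair (fun _ : G => (1 : ℝ)) b := by
  induction a using MonoidAlgebra.induction_linear with
  | zero => simp
  | add x y hx hy => rw [add_mul, map_add, map_add, hx, hy, add_mul]
  | single g r =>
    induction b using MonoidAlgebra.induction_linear with
    | zero => simp
    | add x y hx hy => rw [mul_add, map_add, map_add, hx, hy, mul_add]
    | single h s =>
      rw [MonoidAlgebra.single_mul_single, pair_single, pair_single, pair_single]
      ring

end

lemma sh_zero (f : Lp) : sh 0 f = f := by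
  ext b
  simp

lemma up_inv (x : Z4) : (up x)⁻¹ = up (-x) := by
  ext b
  · simp [up]
  · simp [up]

lemma lamp_inv (f : Lp) : (⟨f, 0⟩ : W)⁻¹ = ⟨-f, 0⟩ := by
  ext b
  · simp
  · simp

lemma st_not (s : Fin 4 → Bool) : st (fun i => !s i) = -st s := by
  funext i
  simp only [st, Pi.neg_apply]
  by_cases h : s i = true
  · simp [h]
  · simp [h]

/-- negation of sign vectors -/
def notEquiv : (Fin 4 → Bool) ≃ (Fin 4 → Bool) where
  toFun s := fun i => !s i
  invFun s := fun i => !s i
  left_inv s := by funext i; simp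
  right_inv s := by funext i; simp

lemma J_sg : J W sg = sg := by
  rw [sg, J_smul, map_sum]
  congr 1
  have h : ∀ s : Fin 4 → Bool, J W (U (st s)) = U (st (notEquiv s)) := by
    intro s
    have h1 : st (notEquiv s) = -st s := st_not s
    rw [h1, U, U, J_single, up_inv]
  rw [Finset.sum_congr rfl fun s _ => h s]
  exact Equiv.sum_comp notEquiv fun s => U (st s)

lemma J_mm (R : Finset Z4) : J W (mm R) = mm R := by
  rw [mm, J_smul, map_sum]
  congr 1
  have h : ∀ f : Lp, J W (MonoidAlgebra.single (⟨f, 0⟩ : W) (1 : ℝ)) =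
      MonoidAlgebra.single (⟨-f, 0⟩ : W) (1 : ℝ) := by
    intro f
    rw [J_single, lamp_inv]
  rw [Finset.sum_congr rfl fun f _ => h f]
  refine Finset.sum_nbij' (fun f => -f) (fun f => -f) ?_ ?_ ?_ ?_ ?_
  · intro f hf
    rw [mem_LR] at hf ⊢
    rwa [Finsupp.support_neg]
  · intro f hf
    rw [mem_LR] at hf ⊢
    rwa [Finsupp.support_neg]
  · intro f _
    exact neg_neg f
  · intro f _
    exact neg_neg f
  · intro f _
    rfl

lemma aug_sg : pair (fun _ : W => (1 : ℝ)) sg = 1 := by
  rw [sg, map_smul, map_sum]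
  have h : ∀ s : Fin 4 → Bool, pair (fun _ : W => (1 : ℝ)) (U (st s)) = 1 := by
    intro s
    rw [U, pair_single, mul_one]
  rw [Finset.sum_congr rfl fun s _ => h s]
  simp

lemma aug_mm (R : Finset Z4) : pair (fun _ : W => (1 : ℝ)) (mm R) = 1 := by
  rw [mm, map_smul, map_sum]
  have h : ∀ f : Lp, pair (fun _ : W => (1 : ℝ)) (MonoidAlgebra.single (⟨f, 0⟩ : W) (1 : ℝ)) =
      1 := by
    intro f
    rw [pair_single, mul_one]
  rw [Finset.sum_congr rfl fun f _ => h f, Finset.sum_const, card_LR, nsmul_eq_mul, mul_one,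
    smul_eq_mul]
  push_cast
  exact inv_mul_cancel₀ (by positivity)

/-- HT-NU -/
theorem sNU : S_NU := by
  constructor
  · intro g
    have h : J W nu = nu := by
      rw [nu, J_mul, J_mul, J_sg, J_mm, mul_assoc]
    calc nu.coeff g⁻¹ = (J W nu).coeff g := (J_coeff nu g).symm
      _ = nu.coeff g := by rw [h]
  · rw [nu, aug_mul, aug_mul, aug_sg, aug_mm, mul_one, mul_one]

end Pool.Agent.R676.HT
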